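import Pool.Agent.H211.AD.Stm3

set_option autoImplicit false

open Metric Set MeasureTheory Filter Topology Polynomial

namespace Pool.Agent.H720.AD211

/-- a continuous function which does not vanish at `c` is bounded from above and below near `c` -/
theorem bounds {G : ℂ → ℂ} {c : ℂ} (hG : ContinuousAt G c) (h0 : G c ≠ 0) :
    ∃ C ≥ (1 : ℝ), ∀ᶠ z in 𝓝 c, ‖G z‖ ≤ C ∧ 1 ≤ C * ‖G z‖ := by
  have hpos : 0 < ‖G c‖ := norm_pos_iff.2 h0
  refine ⟨max 1 (max (2 * ‖G c‖) (2 / ‖G c‖)), le_max_left _ _, ?_⟩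
  have hn := hG.norm
  have h1 : ∀ᶠ z in 𝓝 c, ‖G z‖ < 2 * ‖G c‖ := hn.eventually_lt continuousAt_const (by linarith)
  have h2 : ∀ᶠ z in 𝓝 c, ‖G c‖ / 2 < ‖G z‖ := continuousAt_const.eventually_lt hn (by linarith)
  filter_upwards [h1, h2] with z h3 h4
  constructor
  · exact h3.le.trans ((le_max_left _ _).trans (le_max_right _ _))
  · calc (1 : ℝ) = 2 / ‖G c‖ * (‖G c‖ / 2) := by field_simp
      _ ≤ 2 / ‖G c‖ * ‖G z‖ := mul_le_mul_of_nonneg_left h4.le (by positivity)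
      _ ≤ _ := mul_le_mul_of_nonneg_right ((le_max_right _ _).trans (le_max_right _ _))
        (norm_nonneg _)

theorem pow_aux (f : ℂ → ℂ) (c : ℂ) (hf : AnalyticAt ℂ f c) (hd : deriv f c = 0)
    (hne : ¬ ∀ᶠ z in 𝓝 c, f z = f c) :
    ∃ ℓ : ℕ, 2 ≤ ℓ ∧ ∃ Cp ≥ (1 : ℝ), ∃ rp > (0 : ℝ), ∀ z, ‖z - c‖ ≤ rp →
      ‖f z - f c‖ ≤ Cp * ‖z - c‖ ^ ℓ ∧ ‖z - c‖ ^ ℓ ≤ Cp * ‖f z - f c‖ ∧
      ‖deriv f z‖ ≤ Cp * ‖z - c‖ ^ (ℓ - 1) ∧ ‖z - c‖ ^ (ℓ - 1) ≤ Cp * ‖deriv f z‖ := by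
  have hg : AnalyticAt ℂ (fun z => f z - f c) c := hf.sub analyticAt_const
  have hne' : ¬ ∀ᶠ z in 𝓝 c, f z - f c = 0 := by
    intro h
    exact hne (h.mono fun z hz => sub_eq_zero.1 hz)
  obtain ⟨n, g, hga, hg0, hev⟩ := (hg.exists_eventuallyEq_pow_smul_nonzero_iff).2 hne'
  -- `n ≠ 0`
  have hn0 : n ≠ 0 := by
    intro h
    have h1 := hev.self_of_nhds
    rw [h, sub_self, pow_zero, one_smul] at h1
    exact hg0 h1.symm
  -- the derivative
  have hder : ∀ᶠ z in 𝓝 c, deriv f z = (z - c) ^ (n - 1) * (n * g z + (z - c) * deriv g z) := by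
    filter_upwards [hev.eventually_nhds, hga.eventually_analyticAt] with z hz hgz
    have h1 : HasDerivAt (fun w => (w - c) ^ n * g w + f c)
        (n * (z - c) ^ (n - 1) * 1 * g z + (z - c) ^ n * deriv g z) z := by
      have h2 : HasDerivAt (fun w : ℂ => w - c) 1 z := (hasDerivAt_id z).sub_const c
      exact ((h2.pow n).mul hgz.differentiableAt.hasDerivAt).add_const (f c)
    have h3 : f =ᶠ[𝓝 z] fun w => (w - c) ^ n * g w + f c := by
      filter_upwards [hz] with w hw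
      rw [smul_eq_mul] at hw
      linear_combination hw
    rw [h3.deriv_eq, h1.deriv]
    obtain ⟨m, rfl⟩ : ∃ m, n = m + 1 := ⟨n - 1, by omega⟩
    rw [Nat.add_sub_cancel]
    ring
  -- `n ≠ 1`
  have hn1 : n ≠ 1 := by
    intro h
    have h1 := hder.self_of_nhds
    rw [hd, h, sub_self, Nat.sub_self, pow_zero, one_mul, zero_mul, add_zero, Nat.cast_one,
      one_mul] at h1
    exact hg0 h1.symm
  obtain ⟨C1, hC1, hb1⟩ := bounds hga.continuousAt hg0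
  have hG2 : ContinuousAt (fun z => (n : ℂ) * g z + (z - c) * deriv g z) c :=
    (continuousAt_const.mul hga.continuousAt).add
      ((continuousAt_id.sub continuousAt_const).mul hga.deriv.continuousAt)
  have hG20 : (fun z => (n : ℂ) * g z + (z - c) * deriv g z) c ≠ 0 := by
    change (n : ℂ) * g c + (c - c) * deriv g c ≠ 0
    rw [sub_self, zero_mul, add_zero]
    exact mul_ne_zero (by exact_mod_cast hn0) hg0
  obtain ⟨C2, hC2, hb2⟩ := bounds hG2 hG20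
  refine ⟨n, by omega, max C1 C2, hC1.trans (le_max_left _ _), ?_⟩
  have hall := (hev.and hder).and (hb1.and hb2)
  obtain ⟨ε, hε, hball⟩ := Metric.eventually_nhds_iff.1 hall
  refine ⟨ε / 2, by positivity, fun z hz => ?_⟩
  obtain ⟨⟨h1, h2⟩, ⟨h3, h4⟩, h5, h6⟩ := hball (y := z) (by
    rw [dist_eq_norm]
    linarith)
  rw [smul_eq_mul] at h1
  have k1 : C1 ≤ max C1 C2 := le_max_left _ _
  have k2 : C2 ≤ max C1 C2 := le_max_right _ _
  have key : ∀ (a G : ℂ) (C D : ℝ), ‖G‖ ≤ C → 1 ≤ C * ‖G‖ → C ≤ D →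
      ‖a * G‖ ≤ D * ‖a‖ ∧ ‖a‖ ≤ D * ‖a * G‖ := by
    intro a G C D h7 h8 h9
    rw [norm_mul]
    have ha := norm_nonneg a
    have hG := norm_nonneg G
    constructor
    · rw [mul_comm]
      exact mul_le_mul_of_nonneg_right (h7.trans h9) ha
    · have h10 : 1 ≤ D * ‖G‖ := h8.trans (mul_le_mul_of_nonneg_right h9 hG)
      calc ‖a‖ = ‖a‖ * 1 := (mul_one _).symm
        _ ≤ ‖a‖ * (D * ‖G‖) := mul_le_mul_of_nonneg_left h10 ha
        _ = D * (‖a‖ * ‖G‖) := by ring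
  have e1 := key ((z - c) ^ n) (g z) C1 (max C1 C2) h3 h4 k1
  have e2 := key ((z - c) ^ (n - 1)) ((n : ℂ) * g z + (z - c) * deriv g z) C2 (max C1 C2) h5 h6 k2
  rw [← h1, norm_pow] at e1
  rw [← h2, norm_pow] at e2
  exact ⟨e1.1, e1.2, e2.1, e2.2⟩

theorem t_POW : Pool.Agent.H211.AD.S_POW := pow_aux

end Pool.Agent.H720.AD211
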