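import Pool.Agent.H211.AD.Stm4

/-! Directions of perturbation for rational maps, all multiplicities (`S_TRR`). -/

set_option autoImplicit false

open Filter Topology Metric Set Polynomial MeasureTheory
open scoped OnePoint ENNReal

namespace Pool.Agent.H720.AD211

open Pool.Agent.Helper114.Herman Pool.Agent.H762R2.Rt
open Pool.Agent.H792R2.CE Pool.Agent.H211.LD Pool.Agent.H211.LR
open Pool.Agent.H792R2.Rt (principle_loc)

/-- choice of the direction of the perturbation -/
theorem direction' {P Q : ℂ[X]} {d : ℕ} (hd : 2 ≤ d) (hPQ : IsCoprime P Q) (hPd : P.natDegree ≤ d)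
    (hQd : Q.natDegree = d) (hinf : Att d P Q ∞) {bad : Finset ℂ}
    (hbad : ∀ c ∈ bad, (wr P Q).eval c = 0 ∧ ¬ Att d P Q (c : OnePoint ℂ))
    (hne : ∀ c ∈ bad, ∀ j, deriv ((rf P Q)^[j]) (rf P Q c) ≠ 0)
    (hdense : Dense {z : ℂ | Att d P Q (z : OnePoint ℂ)})
    (hsimple : ∀ c ∈ bad,
      volume (closure (Set.range fun j => (rf P Q)^[j] (rf P Q c))) = 0 ∧
        Summable fun m => ‖deriv ((rf P Q)^[m]) (rf P Q c)‖⁻¹) :
    ∃ H G : ℂ[X], H.natDegree ≤ d ∧ G.natDegree ≤ d ∧
      (∀ c ∈ bad, (wr H Q + wr P G).eval c ≠ 0) ∧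
      ∀ c ∈ bad,
        (Summable fun j => (H * Q - P * G).eval ((rf P Q)^[j] c) /
          Q.eval ((rf P Q)^[j] c) ^ 2 / deriv ((rf P Q)^[j]) (rf P Q c)) ∧
        ∑' j, (H * Q - P * G).eval ((rf P Q)^[j] c) / Q.eval ((rf P Q)^[j] c) ^ 2 /
          deriv ((rf P Q)^[j]) (rf P Q c) ≠ 0 := by
  classical
  have hd0 : 0 < d := by omega
  have hcont : Continuous (sph d P Q) := B1_continuous hPQ hPd hQd
  have hN : wr P Q ≠ 0 := wr_ne_zero hd0 hPQ hQd
  have hKc : IsCompact {z : ℂ | ¬ Att d P Q (z : OnePoint ℂ)} := natt_compact hd0 hPQ hPd hQd hinf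
  have hstay : ∀ z : ℂ, ¬ Att d P Q (z : OnePoint ℂ) → ∀ n,
      ¬ Att d P Q (((rf P Q)^[n] z : ℂ) : OnePoint ℂ) ∧ Q.eval ((rf P Q)^[n] z) ≠ 0 :=
    fun z hz n => natt_iter hcont hinf hz n
  have hKQ : ∀ z ∈ {z : ℂ | ¬ Att d P Q (z : OnePoint ℂ)}, Q.eval z ≠ 0 := fun z hz => by
    have := (hstay z hz 0).2
    simpa using this
  have hAo : IsOpen {z : ℂ | Att d P Q (z : OnePoint ℂ)} :=
    (att_open hd0 hPQ hPd hQd).preimage OnePoint.continuous_coe
  have hsm : ∀ c ∈ bad, ∀ S : ℂ[X],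
      Summable fun j => S.eval ((rf P Q)^[j] c) / Q.eval ((rf P Q)^[j] c) ^ 2 /
        deriv ((rf P Q)^[j]) (rf P Q c) := by
    intro c hc S
    obtain ⟨B, hB⟩ := hKc.exists_bound_of_continuousOn
      (f := fun z => S.eval z / Q.eval z ^ 2)
      (S.continuous.continuousOn.div (Q.continuous.continuousOn.pow 2)
        fun z hz => pow_ne_zero _ (hKQ z hz))
    refine Summable.of_norm_bounded ((hsimple c hc).2.mul_left B) fun j => ?_
    rw [div_eq_mul_inv, norm_mul, norm_inv]
    exact mul_le_mul_of_nonneg_right (hB _ (hstay c (hbad c hc).2 j).1) (by positivity)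
  set L : {c // c ∈ bad} × Bool → ℂ[X] → ℂ := fun i S =>
    if i.2 = true then
      ∑' j, S.eval ((rf P Q)^[j] i.1) / Q.eval ((rf P Q)^[j] i.1) ^ 2 /
        deriv ((rf P Q)^[j]) (rf P Q i.1)
    else (derivative S).eval (i.1 : ℂ) * Q.eval (i.1 : ℂ) -
      2 * S.eval (i.1 : ℂ) * (derivative Q).eval (i.1 : ℂ) with hL
  have hQb : ∀ c ∈ bad, Q.eval c ≠ 0 := fun c hc => hKQ c (hbad c hc).2
  obtain ⟨S, hSd, hS⟩ := D10_choice (D := 2 * d) L
    (by
      intro i S T _ _
      simp only [hL]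
      split_ifs with h
      · rw [← (hsm _ i.1.2 S).tsum_add (hsm _ i.1.2 T)]
        refine tsum_congr fun j => ?_
        rw [Polynomial.eval_add]
        ring
      · simp only [derivative_add, Polynomial.eval_add]
        ring)
    (by
      intro i t S _
      simp only [hL]
      split_ifs with h
      · rw [← tsum_mul_left]
        refine tsum_congr fun j => ?_
        rw [Polynomial.eval_mul, Polynomial.eval_C]
        ring
      · simp only [derivative_mul, derivative_C, zero_mul, zero_add, Polynomial.eval_mul,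
          Polynomial.eval_C]
        ring)
    (by
      rintro ⟨⟨c, hc⟩, b⟩
      by_cases h : b = true
      · obtain ⟨hv, hs⟩ := hsimple c hc
        obtain ⟨S, h1, h2⟩ := transversal hd hPQ hPd hQd (hbad c hc).1 hN hKc
          (fun j => (hstay c (hbad c hc).2 j).1) hKQ (hne c hc) hs
          (A₀ := {z : ℂ | Att d P Q (z : OnePoint ℂ)}) hAo hdense (fun x hx h => h hx)
          (wandering_att hd hPQ hQd) hv
        refine ⟨S, h1, ?_⟩
        simp only [hL]
        rw [if_pos h]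
        exact h2
      · refine ⟨X - C c, ?_, ?_⟩
        · rw [Polynomial.natDegree_X_sub_C]
          omega
        · simp only [hL]
          rw [if_neg h]
          simpa using hQb c hc)
  obtain ⟨H, G, hHd, hGd, hHG⟩ := D9_bezout hPQ hPd hQd hd0 hSd
  refine ⟨H, G, hHd, hGd, ?_, ?_⟩
  · intro c hc h0
    have h1 := hS (⟨c, hc⟩, false)
    simp only [hL, Bool.false_eq_true, if_false] at h1
    apply h1
    have h2 := (hbad c hc).1
    rw [← hHG]
    simp only [wr, Polynomial.eval_sub, Polynomial.eval_add, Polynomial.eval_mul,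
      derivative_sub, derivative_mul] at h0 h2 ⊢
    linear_combination (Q.eval c) * h0 - 2 * G.eval c * h2
  · intro c hc
    have h1 := hS (⟨c, hc⟩, true)
    simp only [hL, if_true] at h1
    rw [hHG]
    exact ⟨hsm c hc S, h1⟩

/-- **The directions.** -/
theorem t_TRR : Pool.Agent.H211.AD.S_TRR := by
  intro d hd P Q hPQ hPd hQd hinf hnull hsimple
  classical
  have hd0 : 0 < d := by omega
  have hcont : Continuous (sph d P Q) := B1_continuous hPQ hPd hQd
  have hN : wr P Q ≠ 0 := wr_ne_zero hd0 hPQ hQd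
  obtain ⟨Ks, hKs⟩ : ∃ Ks : Set ℂ, Ks = {z : ℂ | ¬ Att d P Q (z : OnePoint ℂ)} := ⟨_, rfl⟩
  have hKc : IsCompact Ks := by rw [hKs]; exact natt_compact hd0 hPQ hPd hQd hinf
  have hstay : ∀ z ∈ Ks, ∀ n, (rf P Q)^[n] z ∈ Ks ∧ Q.eval ((rf P Q)^[n] z) ≠ 0 := by
    rw [hKs]; exact fun z hz n => natt_iter hcont hinf hz n
  have hKQ : ∀ z ∈ Ks, Q.eval z ≠ 0 := fun z hz => by
    have := (hstay z hz 0).2
    simpa using this
  have hmemK : ∀ z : ℂ, z ∈ Ks ↔ ¬ Att d P Q (z : OnePoint ℂ) := fun z => by rw [hKs]; rfl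
  obtain ⟨bad, hbad⟩ : ∃ bad : Finset ℂ, (∀ c, c ∈ bad ↔ (wr P Q).eval c = 0 ∧ c ∈ Ks) ∧
      bad.card ≤ 2 * (d - 1) := by
    refine ⟨(wr P Q).roots.toFinset.filter (fun c => c ∈ Ks), fun c => ?_, ?_⟩
    · rw [Finset.mem_filter, Multiset.mem_toFinset, Polynomial.mem_roots hN]
      rfl
    · refine (Finset.card_filter_le _ _).trans ((Multiset.toFinset_card_le _).trans
        ((Polynomial.card_roots' _).trans ?_))
      have := wr_natDegree (P := P) (Q := Q) (d := d) (by omega) hPd hQd.le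
      omega
  obtain ⟨hbad, hcard⟩ := hbad
  have hne : ∀ c ∈ bad, ∀ j, deriv ((rf P Q)^[j]) (rf P Q c) ≠ 0 := fun c hc =>
    (hsimple c ((hbad c).1 hc).1 ((hmemK c).1 ((hbad c).1 hc).2)).1
  have hdense : Dense {z : ℂ | Att d P Q (z : OnePoint ℂ)} := by
    apply Measure.dense_of_ae (μ := volume)
    rw [ae_iff]
    exact hnull
  have hs2 : ∀ c ∈ bad,
        Summable fun m => ‖deriv ((rf P Q)^[m]) (rf P Q c)‖⁻¹ := fun c hc =>
    (hsimple c ((hbad c).1 hc).1 ((hmemK c).1 ((hbad c).1 hc).2)).2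
  obtain ⟨H, G, hHd, hGd, hHG1, hHG2⟩ := direction' hd hPQ hPd hQd hinf (bad := bad)
    (fun c hc => ⟨((hbad c).1 hc).1, (hmemK c).1 ((hbad c).1 hc).2⟩) hne hdense
    (by
      intro c hc
      refine ⟨?_, hs2 c hc⟩
      have h1 : closure (Set.range fun j => (rf P Q)^[j] (rf P Q c)) ⊆ Ks := by
        refine closure_minimal ?_ hKc.isClosed
        rintro _ ⟨j, rfl⟩
        have h2 := (hstay c ((hbad c).1 hc).2 (j + 1)).1
        rwa [Function.iterate_succ_apply] at h2
      refine measure_mono_null h1 ?_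
      rw [hKs]
      exact hnull)
  obtain ⟨b₁, hb₁, hb₂⟩ := PQ_surj hHd hGd
  have hsm : ∀ c ∈ bad, ∀ S : ℂ[X],
      Summable fun j => S.eval ((rf P Q)^[j] c) / Q.eval ((rf P Q)^[j] c) ^ 2 /
        deriv ((rf P Q)^[j]) (rf P Q c) := by
    intro c hc S
    obtain ⟨B, hB⟩ := hKc.exists_bound_of_continuousOn
      (f := fun z => S.eval z / Q.eval z ^ 2)
      (S.continuous.continuousOn.div (Q.continuous.continuousOn.pow 2)
        fun z hz => pow_ne_zero _ (hKQ z hz))
    refine Summable.of_norm_bounded ((hs2 c hc).mul_left B) fun j => ?_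
    rw [div_eq_mul_inv, norm_mul, norm_inv]
    exact mul_le_mul_of_nonneg_right (hB _ (hstay c ((hbad c).1 hc).2 j).1) (by positivity)
  -- the linear forms
  have hL1 : ∀ c : ℂ, ∃ L : EE d →ₗ[ℂ] ℂ, ∀ b, L b = (wr (PP b) Q + wr P (QQ b)).eval c := by
    intro c
    refine ⟨{ toFun := fun b => (wr (PP b) Q + wr P (QQ b)).eval c
              map_add' := ?_
              map_smul' := ?_ }, fun b => rfl⟩
    · intro a b
      rw [PP_add, QQ_add]
      simp only [wr, derivative_add, Polynomial.eval_add, Polynomial.eval_sub,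
        Polynomial.eval_mul]
      ring
    · intro s b
      rw [PP_smul, QQ_smul]
      simp only [wr, derivative_C_mul, Polynomial.eval_add, Polynomial.eval_sub,
        Polynomial.eval_mul, Polynomial.eval_C, smul_eq_mul, RingHom.id_apply]
      ring
  have hL2 : ∀ c : ℂ, ∃ L : EE d →ₗ[ℂ] ℂ, c ∈ bad →
      ∀ b, L b = ∑' j, (PP b * Q - P * QQ b).eval ((rf P Q)^[j] c) /
        Q.eval ((rf P Q)^[j] c) ^ 2 / deriv ((rf P Q)^[j]) (rf P Q c) := by
    intro c
    by_cases hc : c ∈ bad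
    · refine ⟨{ toFun := fun b => ∑' j, (PP b * Q - P * QQ b).eval ((rf P Q)^[j] c) /
                  Q.eval ((rf P Q)^[j] c) ^ 2 / deriv ((rf P Q)^[j]) (rf P Q c)
                map_add' := ?_
                map_smul' := ?_ }, fun _ b => rfl⟩
      · intro a b
        rw [← (hsm c hc _).tsum_add (hsm c hc _)]
        refine tsum_congr fun j => ?_
        rw [PP_add, QQ_add]
        simp only [Polynomial.eval_add, Polynomial.eval_sub, Polynomial.eval_mul]
        ring
      · intro s b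
        rw [RingHom.id_apply, smul_eq_mul, ← tsum_mul_left]
        refine tsum_congr fun j => ?_
        rw [PP_smul, QQ_smul]
        simp only [Polynomial.eval_sub, Polynomial.eval_mul, Polynomial.eval_C]
        ring
    · exact ⟨0, fun h1 => absurd h1 hc⟩
  choose L₁ hL₁ using hL1
  choose L₂ hL₂ using hL2
  refine ⟨(bad.image fun c => LinearMap.ker (L₁ c)) ∪
    bad.image fun c => LinearMap.ker (L₂ c),
    ?_, ?_, ?_⟩
  · refine (Finset.card_union_le _ _).trans ?_
    have h1 : (bad.image fun c => LinearMap.ker (L₁ c)).card ≤ bad.card := Finset.card_image_le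
    have h2 : (bad.image fun c => LinearMap.ker (L₂ c)).card ≤ bad.card := Finset.card_image_le
    omega
  · intro V hV htop
    rcases Finset.mem_union.1 hV with h | h
    · obtain ⟨c, hc, rfl⟩ := Finset.mem_image.1 h
      have h1 : b₁ ∈ LinearMap.ker (L₁ c) := by rw [htop]; trivial
      rw [LinearMap.mem_ker, hL₁, hb₁, hb₂] at h1
      exact hHG1 c hc h1
    · obtain ⟨c, hc, rfl⟩ := Finset.mem_image.1 h
      have h1 : b₁ ∈ LinearMap.ker (L₂ c) := by rw [htop]; trivial
      rw [LinearMap.mem_ker, hL₂ c hc, hb₁, hb₂] at h1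
      exact (hHG2 c hc).2 h1
  · intro b hb c hc hA
    have hcb : c ∈ bad := (hbad c).2 ⟨hc, (hmemK c).2 hA⟩
    refine ⟨fun h0 => ?_, hsm c hcb _, fun h0 => ?_⟩
    · refine hb _ (Finset.mem_union_left _ (Finset.mem_image_of_mem _ hcb)) ?_
      rw [LinearMap.mem_ker, hL₁]
      exact h0
    · refine hb _ (Finset.mem_union_right _ (Finset.mem_image_of_mem _ hcb)) ?_
      rw [LinearMap.mem_ker, hL₂ c hcb]
      exact h0

end Pool.Agent.H720.AD211
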